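import Pool.Agent.Helper17.Agg.Final

namespace Pool.Agent.Results.MP_850444_an.AtMostFour

open Matrix Set Pool.Agent.Helper17.Agg

/-- The data of the problem: three real symmetric matrices `A i`, vectors `b i`, reals `c i`. -/
structure Data (n : ℕ) where
  /-- the symmetric matrices -/
  A : Fin 3 → Matrix (Fin n) (Fin n) ℝ
  /-- the linear parts -/
  b : Fin 3 → (Fin n → ℝ)
  /-- the constants -/
  c : Fin 3 → ℝ
  symm : ∀ i, (A i).IsSymm

variable {n : ℕ}

/-- `f_i(x) = xᵀ A_i x + 2 b_iᵀ x + c_i`. -/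
def Data.f (D : Data n) (i : Fin 3) (x : Fin n → ℝ) : ℝ :=
  x ⬝ᵥ (D.A i *ᵥ x) + 2 * (D.b i ⬝ᵥ x) + D.c i

/-- The block matrix `Q_i = [A_i, b_i; b_iᵀ, c_i]` of size `n + 1`. -/
def Data.Q (D : Data n) (i : Fin 3) : Matrix (Fin n ⊕ Unit) (Fin n ⊕ Unit) ℝ :=
  Matrix.fromBlocks (D.A i) (Matrix.of fun j _ => D.b i j) (Matrix.of fun _ j => D.b i j)
    (Matrix.of fun _ _ => D.c i)

/-- `S = {x : f_i(x) < 0 for i = 1,2,3}`. -/
def Data.S (D : Data n) : Set (Fin n → ℝ) := {x | ∀ i, D.f i x < 0}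

/-- `Q_λ = ∑ λ_i Q_i`. -/
def Data.Qagg (D : Data n) (lam : Fin 3 → ℝ) : Matrix (Fin n ⊕ Unit) (Fin n ⊕ Unit) ℝ :=
  ∑ i, lam i • D.Q i

/-- `S_λ = {x : ∑ λ_i f_i(x) < 0}`. -/
def Data.Sagg (D : Data n) (lam : Fin 3 → ℝ) : Set (Fin n → ℝ) := {x | ∑ i, lam i * D.f i x < 0}

/-- `lam` is a good aggregation: `lam ≥ 0`, `lam ≠ 0`, `conv S ⊆ S_λ`, and `Q_λ` has at most one
negative eigenvalue (negative roots of the characteristic polynomial, with multiplicity). -/
structure Data.Good (D : Data n) (lam : Fin 3 → ℝ) : Prop where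
  nonneg : ∀ i, 0 ≤ lam i
  ne_zero : lam ≠ 0
  hull : convexHull ℝ D.S ⊆ D.Sagg lam
  neg_eig : ((D.Qagg lam).charpoly.roots.filter (fun r => r < 0)).card ≤ 1

/-- PDLC: some real linear combination of `Q_1, Q_2, Q_3` is positive definite. -/
def Data.PDLC (D : Data n) : Prop := ∃ θ : Fin 3 → ℝ, (∑ i, θ i • D.Q i).PosDef

/-- `conv S` is the intersection of the sets `S_λ` of `k` good aggregations. -/
def Data.RepBy (D : Data n) (k : ℕ) : Prop :=
  ∃ lam : Fin k → (Fin 3 → ℝ), (∀ j, D.Good (lam j)) ∧ convexHull ℝ D.S = ⋂ j, D.Sagg (lam j)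

/-- `N(S)`: the least number of good aggregations representing `conv S`. -/
noncomputable def Data.N (D : Data n) : ℕ := sInf {k | D.RepBy k}

/-! ### Translation to bilinear forms on `(Fin n → ℝ) × ℝ` -/

/-- `(x,t)` as a vector indexed by `Fin n ⊕ Unit` -/
def emb (n : ℕ) : ((Fin n → ℝ) × ℝ) →ₗ[ℝ] (Fin n ⊕ Unit → ℝ) where
  toFun y := Sum.elim y.1 (fun _ => y.2)
  map_add' x y := by funext s; rcases s with s | s <;> simp
  map_smul' r y := by funext s; rcases s with s | s <;> simp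

lemma emb_inj {y : (Fin n → ℝ) × ℝ} (h : emb n y = 0) : y = 0 := by
  ext s
  · simpa [emb] using congrFun h (Sum.inl s)
  · simpa [emb] using congrFun h (Sum.inr ())

lemma emb_surj (v : Fin n ⊕ Unit → ℝ) : ∃ y, emb n y = v :=
  ⟨(fun s => v (Sum.inl s), v (Sum.inr ())), by funext s; rcases s with s | s <;> simp [emb]⟩

/-- the bilinear forms -/
noncomputable def BB (D : Data n) (i : Fin 3) : LinearMap.BilinForm ℝ ((Fin n → ℝ) × ℝ) :=
  (Matrix.toBilin' (D.Q i)).compl₁₂ (emb n) (emb n)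

lemma BB_apply (D : Data n) (i : Fin 3) (y y' : (Fin n → ℝ) × ℝ) :
    BB D i y y' = emb n y ⬝ᵥ (D.Q i *ᵥ emb n y') := by
  simp [BB, Matrix.toBilin'_apply']

lemma Q_symm (D : Data n) (i : Fin 3) : (D.Q i).IsSymm := by
  unfold Data.Q
  rw [Matrix.isSymm_fromBlocks_iff]
  exact ⟨D.symm i, by ext; rfl, by ext; rfl, by ext; rfl⟩

lemma BB_symm (D : Data n) (i : Fin 3) (y y' : (Fin n → ℝ) × ℝ) : BB D i y y' = BB D i y' y := by
  rw [BB_apply, BB_apply, Matrix.dotProduct_mulVec, ← Matrix.mulVec_transpose, (Q_symm D i).eq,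
    dotProduct_comm]

lemma BB_f (D : Data n) (i : Fin 3) (x : Fin n → ℝ) : BB D i (x, 1) (x, 1) = D.f i x := by
  rw [BB_apply]
  have h1 : emb n (x, 1) = Sum.elim x (fun _ => (1:ℝ)) := rfl
  rw [h1]
  unfold Data.Q Data.f
  rw [Matrix.fromBlocks_mulVec, sumElim_dotProduct_sumElim]
  have e1 : (Sum.elim x (fun _ : Unit => (1:ℝ))) ∘ Sum.inl = x := by ext; rfl
  have e2 : (Sum.elim x (fun _ : Unit => (1:ℝ))) ∘ Sum.inr = fun _ => 1 := by ext; rfl
  rw [e1, e2, dotProduct_add]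
  simp [Matrix.mulVec, dotProduct, mul_comm]
  ring

lemma SS_eq (D : Data n) : SS (BB D) = D.S := by
  ext x; simp [SS, Data.S, BB_f]

lemma sum_BB (D : Data n) (lam : Fin 3 → ℝ) (y y' : (Fin n → ℝ) × ℝ) :
    ∑ i, lam i * BB D i y y' = emb n y ⬝ᵥ (D.Qagg lam *ᵥ emb n y') := by
  unfold Data.Qagg
  rw [Matrix.sum_mulVec, dotProduct_sum]
  refine Finset.sum_congr rfl fun i _ => ?_
  rw [Matrix.smul_mulVec, dotProduct_smul, smul_eq_mul, BB_apply]

lemma Q_Sagg (D : Data n) (lam : Fin 3 → ℝ) : {x | Q (BB D) lam (x, 1) < 0} = D.Sagg lam := by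
  ext x; simp [Q, Data.Sagg, BB_f]

lemma Qagg_herm (D : Data n) (lam : Fin 3 → ℝ) : (D.Qagg lam).IsHermitian := by
  unfold Data.Qagg Matrix.IsHermitian
  rw [Matrix.conjTranspose_sum]
  refine Finset.sum_congr rfl fun i _ => ?_
  rw [Matrix.conjTranspose_smul, Matrix.conjTranspose_eq_transpose_of_trivial, (Q_symm D i).eq]
  simp

/-- If every pair of vectors spans a vector on which the form is nonnegative, there is at most one
negative eigenvalue. -/
lemma neg_eig_of (D : Data n) (lam : Fin 3 → ℝ)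
    (h : ∀ y y' : (Fin n → ℝ) × ℝ, ∃ a b : ℝ, (a ≠ 0 ∨ b ≠ 0) ∧ 0 ≤ Q (BB D) lam (a • y + b • y')) :
    ((D.Qagg lam).charpoly.roots.filter (fun r => r < 0)).card ≤ 1 := by
  classical
  have hH := Qagg_herm D lam
  rw [hH.roots_charpoly_eq_eigenvalues, Multiset.filter_map, Multiset.card_map]
  by_contra hcon
  push Not at hcon
  have hcard : 1 < (Finset.univ.filter fun i => hH.eigenvalues i < 0).card := by
    simpa [Finset.card_def, Finset.filter_val] using hcon
  obtain ⟨i, hi, j, hj, hij⟩ := Finset.one_lt_card.mp hcard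
  simp only [Finset.mem_filter, Finset.mem_univ, true_and] at hi hj
  obtain ⟨y, hy⟩ := emb_surj (n := n) (hH.eigenvectorBasis i).ofLp
  obtain ⟨y', hy'⟩ := emb_surj (n := n) (hH.eigenvectorBasis j).ofLp
  obtain ⟨a, b, hab, hpos⟩ := h y y'
  have hii : (hH.eigenvectorBasis i).ofLp ⬝ᵥ (hH.eigenvectorBasis i).ofLp = 1 := by
    have := hH.eigenvectorBasis.orthonormal.1 i
    have h2 : inner ℝ (hH.eigenvectorBasis i) (hH.eigenvectorBasis i) = (1:ℝ) := by
      rw [real_inner_self_eq_norm_sq, this]; norm_num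
    rw [EuclideanSpace.inner_eq_star_dotProduct] at h2
    simpa using h2
  have hjj : (hH.eigenvectorBasis j).ofLp ⬝ᵥ (hH.eigenvectorBasis j).ofLp = 1 := by
    have := hH.eigenvectorBasis.orthonormal.1 j
    have h2 : inner ℝ (hH.eigenvectorBasis j) (hH.eigenvectorBasis j) = (1:ℝ) := by
      rw [real_inner_self_eq_norm_sq, this]; norm_num
    rw [EuclideanSpace.inner_eq_star_dotProduct] at h2
    simpa using h2
  have hij' : (hH.eigenvectorBasis i).ofLp ⬝ᵥ (hH.eigenvectorBasis j).ofLp = 0 := by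
    have h2 : inner ℝ (hH.eigenvectorBasis i) (hH.eigenvectorBasis j) = (0:ℝ) :=
      hH.eigenvectorBasis.orthonormal.2 hij
    rw [EuclideanSpace.inner_eq_star_dotProduct] at h2
    rw [dotProduct_comm]
    simpa using h2
  have hji' : (hH.eigenvectorBasis j).ofLp ⬝ᵥ (hH.eigenvectorBasis i).ofLp = 0 := by
    rw [dotProduct_comm]; exact hij'
  have hval : Q (BB D) lam (a • y + b • y') =
      a ^ 2 * hH.eigenvalues i + b ^ 2 * hH.eigenvalues j := by
    unfold Q
    rw [sum_BB, map_add, map_smul, map_smul, hy, hy', Matrix.mulVec_add, Matrix.mulVec_smul,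
      Matrix.mulVec_smul, hH.mulVec_eigenvectorBasis i, hH.mulVec_eigenvectorBasis j]
    simp only [dotProduct_add, add_dotProduct, smul_dotProduct, dotProduct_smul, hii, hjj, hij',
      hji', smul_eq_mul]
    ring
  rw [hval] at hpos
  rcases hab with ha | hb
  · have : a ^ 2 * hH.eigenvalues i < 0 := mul_neg_of_pos_of_neg (by positivity) hi
    have : b ^ 2 * hH.eigenvalues j ≤ 0 := mul_nonpos_of_nonneg_of_nonpos (by positivity) hj.le
    linarith
  · have : b ^ 2 * hH.eigenvalues j < 0 := mul_neg_of_pos_of_neg (by positivity) hj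
    have : a ^ 2 * hH.eigenvalues i ≤ 0 := mul_nonpos_of_nonneg_of_nonpos (by positivity) hi.le
    linarith

lemma BB_cont (D : Data n) (i : Fin 3) :
    Continuous fun p : ((Fin n → ℝ) × ℝ) × ((Fin n → ℝ) × ℝ) => BB D i p.1 p.2 := by
  have hemb : Continuous (emb n) := LinearMap.continuous_of_finiteDimensional _
  simp only [BB_apply, dotProduct, Matrix.mulVec]
  have h1 : ∀ s, Continuous fun p : ((Fin n → ℝ) × ℝ) × ((Fin n → ℝ) × ℝ) => emb n p.1 s :=
    fun s => (continuous_apply s).comp (hemb.comp continuous_fst)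
  have h2 : ∀ s, Continuous fun p : ((Fin n → ℝ) × ℝ) × ((Fin n → ℝ) × ℝ) => emb n p.2 s :=
    fun s => (continuous_apply s).comp (hemb.comp continuous_snd)
  refine continuous_finsetSum _ fun s _ => (h1 s).mul (continuous_finsetSum _ fun t _ => ?_)
  exact continuous_const.mul (h2 t)

lemma BB_pd (D : Data n) {θ : Fin 3 → ℝ} (hθ : (∑ i, θ i • D.Q i).PosDef)
    (y : (Fin n → ℝ) × ℝ) (hy : y ≠ 0) : 0 < Q (BB D) θ y := by
  unfold Q
  rw [sum_BB]
  have := hθ.dotProduct_mulVec_pos (x := emb n y) (fun h => hy (emb_inj h))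
  simpa [Data.Qagg] using this

lemma good_of (D : Data n) {θ : Fin 3 → ℝ} (H : Hyp (BB D) θ) {lam : Fin 3 → ℝ}
    (hl : lam ∈ Om (BB D)) : D.Good lam := by
  obtain ⟨hs, h, hh, hk⟩ := hl
  refine ⟨hs.1, ?_, ?_, neg_eig_of D lam (one_neg H hh hk)⟩
  · rintro rfl
    have := hs.2
    simp at this
  · have := hull_sub H hh hs hk
    rwa [Q_Sagg, SS_eq] at this

/-- The main covering statement, for `S` nonempty. -/
lemma rep_of_nonempty (hn : 3 ≤ n) (D : Data n) (hP : D.PDLC) (hne : D.S.Nonempty)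
    (hu : convexHull ℝ D.S ≠ univ) : ∃ k ≤ 4, D.RepBy k := by
  obtain ⟨θ, hθ⟩ := hP
  have H : Hyp (BB D) θ :=
    { symm := BB_symm D
      cont := BB_cont D
      pd := BB_pd D hθ
      dim := by simpa using hn
      ne := by rw [SS_eq]; exact hne
      x0 := by
        rw [SS_eq]
        by_contra hcon
        push Not at hcon
        exact hu (eq_univ_of_forall hcon) }
  obtain ⟨F, hcard, hF, hcov⟩ := core H
  refine ⟨F.card, hcard, fun j => (F.equivFin.symm j).1, fun j => ?_, ?_⟩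
  · exact good_of D H (hF _ (F.equivFin.symm j).2)
  · apply Set.Subset.antisymm
    · refine subset_iInter fun j => ?_
      exact (good_of D H (hF _ (F.equivFin.symm j).2)).hull
    · intro x hx
      by_contra hxc
      rw [← SS_eq] at hxc
      obtain ⟨h, hh, hz⟩ := exists_h H x hxc
      obtain ⟨lam, hl, hq⟩ := hcov h hh (x, 1) hz
      have := mem_iInter.mp hx (F.equivFin ⟨lam, hl⟩)
      simp only [Equiv.symm_apply_apply] at this
      rw [← Q_Sagg] at this
      exact absurd this (not_lt.mpr hq)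

/-- The case `S = ∅`. -/
lemma rep_of_empty (hn : 3 ≤ n) (D : Data n) (hP : D.PDLC) (he : D.S = ∅) :
    ∃ k ≤ 4, D.RepBy k := by
  classical
  obtain ⟨θ, hθ⟩ := hP
  have hno : ∀ y : (Fin n → ℝ) × ℝ, ∃ i, 0 ≤ BB D i y y :=
    hno_of_empty (BB_cont D) (by rw [SS_eq]; exact he)
  have hd : ∀ y1 y2 : (Fin n → ℝ) × ℝ, ∃ v, v ∉ Submodule.span ℝ {y1, y2} := by
    intro y1 y2
    by_contra hall
    push Not at hall
    have htop : Submodule.span ℝ {y1, y2} = (⊤ : Submodule ℝ ((Fin n → ℝ) × ℝ)) := by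
      rw [eq_top_iff]; intro v _; exact hall v
    have h2 : Module.finrank ℝ (Submodule.span ℝ
        (({y1, y2} : Finset ((Fin n → ℝ) × ℝ)) : Set ((Fin n → ℝ) × ℝ))) ≤
        ({y1, y2} : Finset ((Fin n → ℝ) × ℝ)).card :=
      finrank_span_finset_le_card _
    rw [Finset.coe_insert, Finset.coe_singleton, htop, finrank_top] at h2
    have h3 : ({y1, y2} : Finset ((Fin n → ℝ) × ℝ)).card ≤ 2 := Finset.card_le_two
    have h4 : Module.finrank ℝ ((Fin n → ℝ) × ℝ) = n + 1 := by simp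
    omega
  obtain ⟨lam, hl, hpos⟩ := slemma hd (BB D) (BB_symm D) θ (BB_pd D hθ) hno
  refine ⟨1, by norm_num, fun _ => lam, fun _ => ⟨hl.1, ?_, ?_, ?_⟩, ?_⟩
  · rintro rfl
    have := hl.2
    simp at this
  · rw [he]; simp
  · exact neg_eig_of D lam fun y y' => ⟨1, 0, Or.inl one_ne_zero, hpos _⟩
  · rw [he, convexHull_empty]
    symm
    rw [iInter_const, ← Q_Sagg]
    ext x
    simp only [mem_ofPred_eq, mem_empty_iff_false, iff_false, not_lt]
    exact hpos _

/-- **At most four good aggregations are ever needed.**  Let `n ≥ 3` and let `Q_1, Q_2, Q_3`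
satisfy PDLC.  If `conv S ≠ ℝⁿ`, then `conv S` is the intersection of at most four sets `S_λ` with
`λ` good; and whenever `conv S` is a finite intersection of such sets, `N(S) ≤ 4`.  In particular
`N(S) = 6` (and `N(S) = 5`) never happens. -/
theorem result (n : ℕ) (hn : 3 ≤ n) (D : Data n) (hP : D.PDLC) :
    (convexHull ℝ D.S ≠ univ → ∃ k ≤ 4, D.RepBy k) ∧ ((∃ k, D.RepBy k) → D.N ≤ 4) := by
  have h1 : convexHull ℝ D.S ≠ univ → ∃ k ≤ 4, D.RepBy k := by
    intro hu
    by_cases hne : D.S.Nonempty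
    · exact rep_of_nonempty hn D hP hne hu
    · exact rep_of_empty hn D hP (Set.not_nonempty_iff_eq_empty.mp hne)
  refine ⟨h1, ?_⟩
  rintro ⟨k, hk⟩
  by_cases hu : convexHull ℝ D.S = univ
  · -- the empty intersection works
    have h0 : D.RepBy 0 := ⟨fun j => j.elim0, fun j => j.elim0, by rw [hu]; simp⟩
    exact (Nat.sInf_le (show (0:ℕ) ∈ {k | D.RepBy k} from h0)).trans (by norm_num)
  · obtain ⟨k', hk', hr⟩ := h1 hu
    exact (Nat.sInf_le (show k' ∈ {k | D.RepBy k} from hr)).trans hk'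

end Pool.Agent.Results.MP_850444_an.AtMostFour
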